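import Pool.Agent.Lib.MP_d1f1b5_nt.TB.All

/-!
# MP_d1f1b5_nt (Feit-Thompson divisibility conjecture): the conjecture for almost all primes and all
small partners

`F(a,n) = (a^n - 1)/(a - 1)`. For every `0 < ε < 1` there is `C` such that for every `0 < δ ≤ 1` and
all large `X` the number of odd primes `p ≤ X` for which there is an odd prime `q ≠ p`, `q ≤ X^δ`,
with `F(p,q) ∣ F(q,p)` or `F(q,p) ∣ F(p,q)`, is at most `C δ^(1-ε) X / log X`.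
-/

set_option autoImplicit false

namespace Pool.Agent.Results.MP_d1f1b5_nt.AlmostAllPrimes

open Pool.Agent.Lib.MP_d1f1b5_nt.TB

open scoped Classical in
theorem result :
    ∀ ε : ℝ, 0 < ε → ε < 1 → ∃ C : ℝ, 0 < C ∧ ∀ δ : ℝ, 0 < δ → δ ≤ 1 →
      ∃ X₀ : ℕ, ∀ X : ℕ, X₀ ≤ X →
        ({p : ℕ | p.Prime ∧ p ≠ 2 ∧ p ≤ X ∧ ∃ q : ℕ, q.Prime ∧ q ≠ 2 ∧ q ≠ p ∧
          (q : ℝ) ≤ (X : ℝ) ^ δ ∧
          ((p ^ q - 1) / (p - 1) ∣ (q ^ p - 1) / (q - 1) ∨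
            (q ^ p - 1) / (q - 1) ∣ (p ^ q - 1) / (p - 1))}.ncard : ℝ)
          ≤ C * δ ^ (1 - ε) * (X / Real.log X) := by
  intro ε hε hε1
  obtain ⟨C, hC, h⟩ := allFIN.1 ε hε hε1
  refine ⟨C, hC, fun δ hδ hδ1 => ?_⟩
  obtain ⟨X₀, hX₀⟩ := h δ hδ hδ1
  refine ⟨X₀, fun X hX => ?_⟩
  have h1 := hX₀ X hX
  rw [mul_div_assoc] at h1
  refine le_trans (le_of_eq ?_) h1
  rw [← Set.ncard_coe_finset]
  congr 2
  ext p
  simp only [Set.mem_setOf_eq, Finset.coe_filter, Finset.mem_Icc, Bad]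
  constructor
  · rintro ⟨h1, h2, h3, h4⟩
    exact ⟨⟨h1.one_lt.le, h3⟩, h1, h2, h4⟩
  · rintro ⟨⟨-, h3⟩, h1, h2, h4⟩
    exact ⟨h1, h2, h3, h4⟩

end Pool.Agent.Results.MP_d1f1b5_nt.AlmostAllPrimes
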