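import Pool.Agent.Lib.MP_d1f1b5_nt.KU.Count
import Pool.Agent.Lib.MP_d1f1b5_nt.E5.Five

set_option autoImplicit false

/-!
# The Feit-Thompson divisibility conjecture: the exponent `q = 5`

Let `p` be an odd prime, `p ≠ 5`. If `F(p,5) = (p^5 - 1)/(p - 1)` divides `F(5,p) = (5^p - 1)/4`,
then `F(p,5)` is a prime number and `p` is `27`, `63` or `99` modulo `100`.
-/

namespace Pool.Agent.Results.MP_d1f1b5_nt.ExponentFive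

open Pool.Agent.Lib.MP_d1f1b5_nt

theorem result (p : ℕ) (hp : p.Prime) (h2 : p ≠ 2) (h5 : p ≠ 5)
    (hd : (p ^ 5 - 1) / (p - 1) ∣ (5 ^ p - 1) / (5 - 1)) :
    ((p ^ 5 - 1) / (p - 1)).Prime ∧ (p % 100 = 27 ∨ p % 100 = 63 ∨ p % 100 = 99) := by
  have h5p : Nat.Prime 5 := by norm_num
  have : Fact (Nat.Prime 5) := ⟨h5p⟩
  rw [QR.FF_eq hp.two_le] at hd ⊢
  rw [QR.FF_eq h5p.two_le] at hd
  have hN := E5.prime_of_dvd hp h2 h5 hd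
  refine ⟨hN, ?_⟩
  have h4 : p % 4 = 3 := by
    have h6 : p % 2 = 1 := Nat.odd_iff.1 (hp.odd_of_ne_two h2)
    have h7 : p % 4 ≠ 1 := fun h => E5.not_one_mod_four hp h hN hd
    omega
  have h25 : p % 5 ≠ 0 := by
    intro h
    exact h5 ((Nat.prime_dvd_prime_iff_eq h5p hp).1 (Nat.dvd_of_mod_eq_zero h)).symm
  have hk : ((5 : ℕ) : ℤ) ^ 2 ∣ KU.ee 5 p := KU.kummer (by norm_num) hp h5 hd
  have he : KU.ee 5 p = ((p : ℤ) - 1) ^ 4 + (15 * (p : ℤ) ^ 3 + 80 * (p : ℤ) ^ 2 + 255 * p) - 1 := by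
    unfold KU.ee
    have : Finset.Ico 1 5 = {1, 2, 3, 4} := by decide
    rw [this]
    norm_num
    ring
  rw [he] at hk
  have h6 : ((p % 25 : ℕ) : ℤ) = (p : ℤ) % 25 := by push_cast; rfl
  have h7 : (25 : ℤ) ∣ (((p % 25 : ℕ) : ℤ) - 1) ^ 4 + (15 * ((p % 25 : ℕ) : ℤ) ^ 3 +
      80 * ((p % 25 : ℕ) : ℤ) ^ 2 + 255 * ((p % 25 : ℕ) : ℤ)) - 1 := by
    have h8 : (p : ℤ) ≡ ((p % 25 : ℕ) : ℤ) [ZMOD 25] := by
      rw [h6]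
      exact (Int.mod_modEq _ _).symm
    have h9 : ((p : ℤ) - 1) ^ 4 + (15 * (p : ℤ) ^ 3 + 80 * (p : ℤ) ^ 2 + 255 * p) - 1 ≡
        (((p % 25 : ℕ) : ℤ) - 1) ^ 4 + (15 * ((p % 25 : ℕ) : ℤ) ^ 3 +
      80 * ((p % 25 : ℕ) : ℤ) ^ 2 + 255 * ((p % 25 : ℕ) : ℤ)) - 1 [ZMOD 25] := by
      gcongr
    exact (Int.ModEq.dvd_iff h9).1 (by simpa using hk)
  have h10 : ∀ x : ℕ, x < 25 → (25 : ℤ) ∣ ((x : ℤ) - 1) ^ 4 + (15 * (x : ℤ) ^ 3 +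
      80 * (x : ℤ) ^ 2 + 255 * (x : ℤ)) - 1 → x % 5 ≠ 0 → x = 2 ∨ x = 13 ∨ x = 24 := by
    decide
  have h11 := h10 (p % 25) (Nat.mod_lt _ (by norm_num)) h7 (by omega)
  omega

end Pool.Agent.Results.MP_d1f1b5_nt.ExponentFive
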