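import Pool.Agent.Lib.MP_d1f1b5_nt.KU.Count

set_option autoImplicit false

/-!
# The Feit-Thompson divisibility conjecture: a congruence modulo `q^2` for every odd prime `q`

Let `q` be an odd prime and `p ≠ q` a prime. If `F(p,q) = (p^q - 1)/(p - 1)` divides
`F(q,p) = (q^p - 1)/(q - 1)`, then

  `(p-1)^(q-1) + sum_{1 <= m <= q-1} (m^(q-1) - 1) p^(q-m) = 1  mod q^2`.

The condition depends only on `p` modulo `q^2`, and among the residues modulo `q^2` prime to `q`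
it holds for at most `q - 2` (of `q (q-1)`).
-/

namespace Pool.Agent.Results.MP_d1f1b5_nt.KummerCongruence

open Finset

/-- The exceptional residues `x` modulo `q^2`. -/
def Exc (q : ℕ) (x : ℤ) : Prop :=
  (x - 1) ^ (q - 1) + ∑ m ∈ Ico 1 q, ((m : ℤ) ^ (q - 1) - 1) * x ^ (q - m) ≡ 1 [ZMOD (q : ℤ) ^ 2]

instance (q : ℕ) (x : ℤ) : Decidable (Exc q x) := by
  unfold Exc
  infer_instance

theorem result (q : ℕ) (hq : q.Prime) (hq2 : q ≠ 2) :
    (∀ p : ℕ, p.Prime → p ≠ q → ¬ Exc q p →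
      ¬ ((p ^ q - 1) / (p - 1) ∣ (q ^ p - 1) / (q - 1))) ∧
    (∀ x y : ℤ, x ≡ y [ZMOD (q : ℤ) ^ 2] → (Exc q x ↔ Exc q y)) ∧
    ((range (q ^ 2)).filter (fun x : ℕ => ¬ q ∣ x ∧ Exc q x)).card ≤ q - 2 := by
  have : Fact q.Prime := ⟨hq⟩
  have key : ∀ x : ℤ, Exc q x ↔ (q : ℤ) ^ 2 ∣ Pool.Agent.Lib.MP_d1f1b5_nt.KU.ee q x := by
    intro x
    unfold Exc Pool.Agent.Lib.MP_d1f1b5_nt.KU.ee
    constructor
    · intro h
      exact (Int.modEq_iff_dvd).mp h.symm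
    · intro h
      exact ((Int.modEq_iff_dvd).mpr h).symm
  refine ⟨?_, ?_, ?_⟩
  · intro p hp hpq hex hd
    rw [Pool.Agent.Lib.MP_d1f1b5_nt.QR.FF_eq hp.two_le,
      Pool.Agent.Lib.MP_d1f1b5_nt.QR.FF_eq hq.two_le] at hd
    exact hex ((key p).mpr (Pool.Agent.Lib.MP_d1f1b5_nt.KU.kummer hq2 hp hpq hd))
  · intro x y hxy
    have h1 : (q : ℤ) ^ 2 ∣ x - y := (Int.modEq_iff_dvd).mp hxy.symm
    have h2 := Pool.Agent.Lib.MP_d1f1b5_nt.KU.ee_congr h1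
    rw [key, key]
    exact dvd_iff_dvd_of_dvd_sub h2
  · have h := Pool.Agent.Lib.MP_d1f1b5_nt.KU.ee_card (q := q)
    refine le_trans (le_of_eq ?_) h
    congr 1
    ext x
    simp only [Finset.mem_filter, key]

end Pool.Agent.Results.MP_d1f1b5_nt.KummerCongruence
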