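import Pool.Agent.Lib.MP_d1f1b5_nt.QR.Final

set_option autoImplicit false

/-!
# The Feit-Thompson divisibility conjecture: a quartic reciprocity condition

Let `p`, `q` be odd primes, `q = 3 mod 4`, `q > 3`. If `F(p,q) = (p^q - 1)/(p - 1)` divides
`F(q,p) = (q^p - 1)/(q - 1)`, then `p = 3 mod 4` and the Jacobi symbols
`(2(p-1) | q)` and `(2 | p)` have product `-1`.
So Q1 holds for every pair `(p,q)` for which this condition modulo `8q` fails.
-/

namespace Pool.Agent.Results.MP_d1f1b5_nt.QuarticCondition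

open Pool.Agent.Lib.MP_d1f1b5_nt.QR

theorem result (p q : ℕ) (hp : p.Prime) (hq : q.Prime) (hp2 : Odd p)
    (hq4 : q % 4 = 3) (hq3 : q ≠ 3)
    (hex : ¬ (p % 4 = 3 ∧ jacobiSym (2 * ((p : ℤ) - 1)) q * jacobiSym 2 p = -1)) :
    ¬ ((p ^ q - 1) / (p - 1) ∣ (q ^ p - 1) / (q - 1)) := by
  intro hd
  rw [FF_eq hp.two_le, FF_eq hq.two_le] at hd
  have : Fact q.Prime := ⟨hq⟩
  exact hex ⟨p_mod_four hp hp2 hd hq4, quartic hp hp2 hd hq4 hq3⟩

end Pool.Agent.Results.MP_d1f1b5_nt.QuarticCondition
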